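import Mathlib

set_option autoImplicit false

namespace Pool.Agent.Results.MP_fb95e7_gt.No

open Set Filter Topology TopologicalSpace

/-- A retractional skeleton on `K`. -/
def Skel {K Γ : Type} [TopologicalSpace K] [PartialOrder Γ] (r : Γ → K → K) : Prop :=
  Nonempty Γ ∧ (∀ s t : Γ, ∃ u, s ≤ u ∧ t ≤ u) ∧
  (∀ s : ℕ → Γ, Monotone s → ∃ t, IsLUB (range s) t) ∧
  (∀ s, Continuous (r s) ∧ r s ∘ r s = r s ∧ MetrizableSpace (range (r s))) ∧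
  (∀ s t, s ≤ t → r s = r s ∘ r t ∧ r s = r t ∘ r s) ∧
  (∀ (s : ℕ → Γ) t, StrictMono s → IsLUB (range s) t →
    ∀ x, Tendsto (fun n => r (s n) x) atTop (𝓝 (r t x))) ∧
  ∀ x, Tendsto (fun s => r s x) atTop (𝓝 x)

/-- `R` is, up to re-indexing by an order isomorphism, a subskeleton of `r`. -/
def Sub {K Λ Γ : Type} [PartialOrder Λ] [PartialOrder Γ] (R : Λ → K → K) (r : Γ → K → K) : Prop :=
  ∃ φ : Λ ↪o Γ, (∀ s, ∃ i, s ≤ φ i) ∧
    (∀ (s : ℕ → Γ) t, Monotone s → (∀ n, s n ∈ range φ) → IsLUB (range s) t → t ∈ range φ) ∧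
    ∀ i, R i = r (φ i)

theorem result : ∃ (K : Type) (_ : TopologicalSpace K), CompactSpace K ∧ T2Space K ∧
    ∃ (Γ : ℕ → Type) (_ : ∀ n, PartialOrder (Γ n)) (r : ∀ n, Γ n → K → K),
      (∀ n, Skel (r n)) ∧ (∀ m n, ⋃ s, range (r m s) = ⋃ s, range (r n s)) ∧
      ¬ ∃ (Λ : Type) (_ : PartialOrder Λ) (R : Λ → K → K), Skel R ∧ ∀ n, Sub R (r n) := by
  let Γ : ℕ → Type := fun n => {A : Set ℝ // A.Countable ∧ (n = 0 → A = ∅)}
  have ne : ∀ n, Nonempty (Γ n) := fun n => ⟨⟨∅, by simp⟩⟩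
  refine ⟨Unit, inferInstance, inferInstance, inferInstance, Γ, inferInstance, fun _ _ => id,
    fun n => ⟨ne n, fun s t => ⟨⟨s.1 ∪ t.1, s.2.1.union t.2.1, fun h => by simp [s.2.2 h, t.2.2 h]⟩,
      subset_union_left, subset_union_right⟩, fun s _ => ⟨⟨⋃ k, (s k).1, countable_iUnion fun k =>
        (s k).2.1, fun h => by simp [fun k => (s k).2.2 h]⟩, forall_mem_range.2 fun k =>
          subset_iUnion (fun k => (s k).1) k, fun t ht => iUnion_subset fun k => ht ⟨k, rfl⟩⟩,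
      fun _ => ⟨continuous_id, rfl, inferInstance⟩, fun _ _ _ => ⟨rfl, rfl⟩,
      fun _ _ _ _ _ => tendsto_const_nhds, fun _ => tendsto_const_nhds⟩,
    fun m n => by simp [iUnion_const], ?_⟩
  rintro ⟨Λ, _, R, ⟨⟨i⟩, -⟩, h⟩
  obtain ⟨φ, -⟩ := h 0
  obtain ⟨ψ, h1, -⟩ := h 1
  refine not_countable_univ ((ψ i).2.1.mono fun x _ => ?_)
  obtain ⟨j, hj⟩ := h1 ⟨{x}, by simp⟩
  exact φ.injective (Subtype.ext (((φ j).2.2 rfl).trans ((φ i).2.2 rfl).symm)) ▸ hj rfl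

end Pool.Agent.Results.MP_fb95e7_gt.No
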